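import Pool.Agent.H92.Click.Hard
import Pool.Agent.H92.Click.Member

/-!
MP_ce96bf_lc, Q1: the complexity of two-player Clickomania. It is PSPACE-complete.
-/

namespace Pool.Agent.Results.MP_ce96bf_lc.PSpaceComplete

open Pool.Agent.H92.Desc Pool.Agent.H92.Click

/-- Two-player Clickomania is PSPACE-complete. -/
theorem result : PSPACEComplete clickLang_rel Clickomania := ⟨inPSPACE, hard⟩

end Pool.Agent.Results.MP_ce96bf_lc.PSpaceComplete
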